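import Pool.Agent.R598.PM.St

set_option autoImplicit false

namespace Pool.Agent.Results.MP_ec7d96_lc.StronglyNotDyadically

open Pool.Agent.W868 Pool.Agent.R598.PM

/-- There is a countable transitive model `M` of ZF with a set `A` that is, in `M`, strongly
filterbase infinite and not dyadically filterbase infinite. -/
theorem result : ∃ M : Set ZFSet.{0}, M.Countable ∧ IsZF M ∧ ∃ A ∈ M,
    StrongInf M A ∧ ¬ DyadInf M A := St.main

end Pool.Agent.Results.MP_ec7d96_lc.StronglyNotDyadically
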